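import Mathlib

open Matrix Cardinal

namespace Pool.Agent.R951.PCE

/-- unnormalised half-turn words over any commutative ring -/
def hN {R : Type*} [CommRing R] {J : Type*} (q : J → Fin 3 → R) (l : List J) (v : Fin 3 → R) :
    Fin 3 → R :=
  l.foldr (fun j u => (2 * (q j ⬝ᵥ u)) • q j - (q j ⬝ᵥ q j) • u) v

theorem hN_nil {R : Type*} [CommRing R] {J : Type*} (q : J → Fin 3 → R) (v : Fin 3 → R) :
    hN q [] v = v := rfl

theorem hN_cons {R : Type*} [CommRing R] {J : Type*} (q : J → Fin 3 → R) (a : J) (l : List J)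
    (v : Fin 3 → R) :
    hN q (a :: l) v = (2 * (q a ⬝ᵥ hN q l v)) • q a - (q a ⬝ᵥ q a) • hN q l v := rfl

theorem hN_map {R R' : Type*} [CommRing R] [CommRing R'] (f : R →+* R') {J : Type*}
    (q : J → Fin 3 → R) (l : List J) (v : Fin 3 → R) :
    (fun i => f (hN q l v i)) = hN (fun j i => f (q j i)) l (fun i => f (v i)) := by
  induction l with
  | nil => rfl
  | cons a l ih =>
    rw [hN_cons, hN_cons, ← ih]
    funext i
    have h2 : f 2 = 2 := map_ofNat f 2
    simp [dotProduct, Fin.sum_univ_three, h2]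

theorem iso_nonzero {J : Type*} (q : J → Fin 3 → ℂ) (hq : ∀ j, q j ⬝ᵥ q j = 0)
    (hne : ∀ i j, i ≠ j → q i ⬝ᵥ q j ≠ 0) (v : Fin 3 → ℂ) :
    ∀ (m : List J) (a : J), List.IsChain (· ≠ ·) (a :: m) →
      (q ((a :: m).getLast (List.cons_ne_nil a m)) ⬝ᵥ v ≠ 0) →
      ∃ κ : ℂ, κ ≠ 0 ∧ hN q (a :: m) v = κ • q a := by
  intro m
  induction m with
  | nil =>
    intro a _ h
    refine ⟨2 * (q a ⬝ᵥ v), ?_, ?_⟩
    · simpa using h
    · rw [hN_cons, hN_nil, hq a]; simp
  | cons b m ih =>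
    intro a hc h
    rw [List.isChain_cons_cons] at hc
    obtain ⟨κ, hκ, e⟩ := ih b hc.2 (by simpa using h)
    refine ⟨2 * (κ * (q a ⬝ᵥ q b)), ?_, ?_⟩
    · have := hne a b hc.1
      exact mul_ne_zero two_ne_zero (mul_ne_zero hκ this)
    · rw [hN_cons, e, hq a]
      simp

/-- the half-turn about the axis `p` -/
noncomputable def hs (p v : Fin 3 → ℝ) : Fin 3 → ℝ := (2 * (p ⬝ᵥ v) / (p ⬝ᵥ p)) • p - v

/-- words in half-turns -/
noncomputable def sN {J : Type*} (p : J → Fin 3 → ℝ) (l : List J) (v : Fin 3 → ℝ) : Fin 3 → ℝ :=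
  l.foldr (fun j u => hs (p j) u) v

theorem sN_nil {J : Type*} (p : J → Fin 3 → ℝ) (v : Fin 3 → ℝ) : sN p [] v = v := rfl

theorem sN_cons {J : Type*} (p : J → Fin 3 → ℝ) (a : J) (l : List J) (v : Fin 3 → ℝ) :
    sN p (a :: l) v = hs (p a) (sN p l v) := rfl

theorem hN_eq_sN {J : Type*} (p : J → Fin 3 → ℝ) (hp : ∀ j, p j ⬝ᵥ p j ≠ 0) (l : List J)
    (v : Fin 3 → ℝ) :
    hN p l v = ((l.map (fun j => p j ⬝ᵥ p j)).prod) • sN p l v := by
  induction l with
  | nil => simp [hN_nil, sN_nil]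
  | cons a l ih =>
    rw [hN_cons, sN_cons, ih, hs]
    have := hp a
    funext i
    simp only [dotProduct_smul, smul_eq_mul, List.map_cons, List.prod_cons, Pi.sub_apply,
      Pi.smul_apply]
    field_simp

theorem hs_hs (p v : Fin 3 → ℝ) (hp : p ⬝ᵥ p ≠ 0) : hs p (hs p v) = v := by
  funext i
  simp only [hs, dotProduct_sub, dotProduct_smul, smul_eq_mul, Pi.sub_apply, Pi.smul_apply]
  field_simp
  ring

theorem hs_dot (p v : Fin 3 → ℝ) (hp : p ⬝ᵥ p ≠ 0) : hs p v ⬝ᵥ hs p v = v ⬝ᵥ v := by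
  simp only [hs, dotProduct_sub, dotProduct_smul, sub_dotProduct, smul_dotProduct, smul_eq_mul]
  rw [dotProduct_comm v p]
  field_simp
  ring

/-- isotropic vectors -/
noncomputable def zz (s : ℝ) : Fin 3 → ℂ := ![1 - (s : ℂ) ^ 2, Complex.I * (1 + (s : ℂ) ^ 2), 2 * (s : ℂ)]

theorem zz_dot (s r : ℝ) : zz s ⬝ᵥ zz r = -2 * ((s : ℂ) - r) ^ 2 := by
  simp only [zz, dotProduct, Fin.sum_univ_three, Matrix.cons_val_zero, Matrix.cons_val_one,
    Matrix.cons_val]
  have := Complex.I_mul_I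
  linear_combination ((1 + (s : ℂ) ^ 2) * (1 + (r : ℂ) ^ 2)) * this

theorem exists_zz (w : Fin 3 → ℝ) (hw : w ⬝ᵥ w = 1) :
    ∃ s : ℝ, zz s ⬝ᵥ (fun i => ((w i : ℝ) : ℂ)) ≠ 0 := by
  by_contra hcon
  push Not at hcon
  have h0 := hcon 0
  have h1 := hcon 1
  simp only [zz, dotProduct, Fin.sum_univ_three, Matrix.cons_val_zero, Matrix.cons_val_one,
    Matrix.cons_val] at h0 h1
  have a0 := congrArg Complex.re h0
  have a1 := congrArg Complex.im h0
  have b0 := congrArg Complex.re h1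
  simp at a0 a1 b0
  rw [dotProduct, Fin.sum_univ_three, a0, a1, b0] at hw
  norm_num at hw

theorem zz_ne (s : ℝ) : zz s ≠ 0 := by
  intro h
  have h0 := congrFun h 0
  have h2 := congrFun h 2
  simp only [zz, Matrix.cons_val_zero, Matrix.cons_val, Pi.zero_apply] at h0 h2
  have h3 : (s : ℂ) = 0 := by simpa using h2
  rw [h3] at h0
  simp at h0

theorem mk_basis_ge (K : Subfield ℝ) (hK : #K < 𝔠) (s : Set ℝ)
    (hs : IsTranscendenceBasis K ((↑) : s → ℝ)) : 𝔠 ≤ #s := by
  by_contra hcon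
  push Not at hcon
  have h1 : #ℝ ≤ max #(Algebra.adjoin K (Set.range ((↑) : s → ℝ))) ℵ₀ := by
    have := hs.isAlgebraic
    exact Algebra.IsAlgebraic.cardinalMk_le_max _ _
  have h2 : #(Algebra.adjoin K (Set.range ((↑) : s → ℝ))) = #(MvPolynomial s K) :=
    (Cardinal.mk_congr hs.1.aevalEquiv.toEquiv).symm
  have h3 : #(MvPolynomial s K) ≤ max (max #K #s) ℵ₀ := MvPolynomial.cardinalMk_le_max
  rw [h2, mk_real] at h1
  have h4 : max (max (#K) (#s)) ℵ₀ < 𝔠 := max_lt (max_lt hK hcon) aleph0_lt_continuum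
  exact absurd (h1.trans (max_le h3 (le_max_right _ _))) (not_le.2 h4)

theorem exists_generic (W : Set (Fin 3 → ℝ)) (hW1 : ∀ w ∈ W, w ⬝ᵥ w = 1)
    (hW : (2 : Cardinal) ^ #W ≤ 𝔠) :
    ∃ p : (W → Fin 2) → (Fin 3 → ℝ), (∀ j, p j ⬝ᵥ p j ≠ 0) ∧
      ∀ l : List (W → Fin 2), l ≠ [] → l.IsChain (· ≠ ·) → ∀ w ∈ W, ∀ w' ∈ W, sN p l w ≠ w' := by
  classical
  have hWc : #W < 𝔠 := (cantor _).trans_le hW
  let g : W × Fin 3 → ℝ := fun x => x.1.1 x.2
  let K : Subfield ℝ := Subfield.closure (Set.range g)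
  have hK : #K < 𝔠 := by
    refine (Subfield.cardinalMk_closure_le_max _).trans_lt (max_lt ?_ aleph0_lt_continuum)
    refine mk_range_le.trans_lt ?_
    rw [mk_prod, lift_id, lift_id]
    exact mul_lt_of_lt aleph0_le_continuum hWc (by simpa using nat_lt_continuum 3)
  obtain ⟨s, hs⟩ := exists_isTranscendenceBasis K ℝ
  have hsc := mk_basis_ge K hK s hs
  have hJ : #((W → Fin 2) × Fin 3) ≤ #s := by
    refine le_trans ?_ hsc
    rw [mk_prod, lift_id, lift_id]
    refine (mul_le_mul' (b := 𝔠) (d := 𝔠) ?_ ?_).trans continuum_mul_self.le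
    · simpa using hW
    · simpa using (nat_lt_continuum 3).le
  obtain ⟨φ⟩ := hJ
  let t : (W → Fin 2) × Fin 3 → ℝ := fun x => (φ x : ℝ)
  have ht : AlgebraicIndependent K t := hs.1.comp φ φ.injective
  refine ⟨fun j i => t (j, i), ?_, ?_⟩
  · intro j h0
    have : t (j, 0) = 0 := by
      rw [dotProduct, Fin.sum_univ_three] at h0
      nlinarith [mul_self_nonneg (t (j, 0)), mul_self_nonneg (t (j, 1)),
        mul_self_nonneg (t (j, 2))]
    exact ht.ne_zero (j, 0) this
  · intro l hl hc w hw w' hw' heq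
    have hp : ∀ j, (fun i => t (j, i)) ⬝ᵥ (fun i => t (j, i)) ≠ 0 := by
      intro j h0
      have : t (j, 0) = 0 := by
        rw [dotProduct, Fin.sum_univ_three] at h0
        nlinarith [mul_self_nonneg (t (j, 0)), mul_self_nonneg (t (j, 1)),
          mul_self_nonneg (t (j, 2))]
      exact ht.ne_zero (j, 0) this
    have hmem : ∀ u ∈ W, ∀ i, u i ∈ K := fun u hu i =>
      Subfield.subset_closure ⟨(⟨u, hu⟩, i), rfl⟩
    let wK : Fin 3 → K := fun i => ⟨w i, hmem w hw i⟩
    let wK' : Fin 3 → K := fun i => ⟨w' i, hmem w' hw' i⟩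
    let q : (W → Fin 2) → Fin 3 → MvPolynomial ((W → Fin 2) × Fin 3) K :=
      fun j i => MvPolynomial.X (j, i)
    let F : Fin 3 → MvPolynomial ((W → Fin 2) × Fin 3) K := fun i =>
      hN q l (fun i => MvPolynomial.C (wK i)) i -
        (l.map (fun j => q j ⬝ᵥ q j)).prod * MvPolynomial.C (wK' i)
    have hF : ∀ i, F i = 0 := by
      intro i
      apply ht.eq_zero_of_aeval_eq_zero
      have e1 := congrFun (hN_map (MvPolynomial.aeval t : _ →ₐ[K] ℝ).toRingHom q l
        (fun i => MvPolynomial.C (wK i))) i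
      have e2 : (MvPolynomial.aeval t : _ →ₐ[K] ℝ).toRingHom
          ((l.map (fun j => q j ⬝ᵥ q j)).prod) =
          (l.map (fun j => (fun i => t (j, i)) ⬝ᵥ (fun i => t (j, i)))).prod := by
        rw [map_list_prod, List.map_map]
        congr 1
        apply List.map_congr_left
        intro j _
        simp [q, dotProduct, Fin.sum_univ_three]
      have e3 := congrFun (hN_eq_sN (fun j i => t (j, i)) hp l w) i
      rw [heq] at e3
      simp only [F, map_sub, map_mul]
      simp only [AlgHom.toRingHom_eq_coe, RingHom.coe_coe] at e1 e2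
      rw [e1, e2]
      simp only [q, MvPolynomial.aeval_X, MvPolynomial.aeval_C, wK, wK']
      have e4 : ∀ x : K, (algebraMap K ℝ) x = (x : ℝ) := fun x => rfl
      simp only [e4]
      rw [e3]
      simp
    obtain ⟨s0, hs0⟩ := exists_zz w (hW1 w hw)
    have hJR : #(W → Fin 2) ≤ #ℝ := by
      rw [mk_real]; simpa using hW
    obtain ⟨r0⟩ := hJR
    let r : (W → Fin 2) → ℝ := fun j => r0 j + (s0 - r0 (l.getLast hl))
    have hr : ∀ i j, i ≠ j → r i ≠ r j := by
      intro i j hij h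
      exact hij (r0.injective (by simpa [r] using h))
    have hrl : r (l.getLast hl) = s0 := by simp [r]
    let ev : MvPolynomial ((W → Fin 2) × Fin 3) K →+* ℂ :=
      MvPolynomial.eval₂Hom ((algebraMap ℝ ℂ).comp K.subtype) (fun x => zz (r x.1) x.2)
    obtain ⟨a, m, rfl⟩ := List.exists_cons_of_ne_nil hl
    have hz0 : ∀ j, zz (r j) ⬝ᵥ zz (r j) = 0 := by
      intro j; rw [zz_dot]; simp
    obtain ⟨κ, hκ, e⟩ := iso_nonzero (fun j => zz (r j)) hz0
      (by
        intro i j hij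
        rw [zz_dot]
        have := hr i j hij
        refine mul_ne_zero (by norm_num) (pow_ne_zero 2 (sub_ne_zero.2 ?_))
        exact_mod_cast this) (fun i => ((w i : ℝ) : ℂ)) m a hc (by rw [hrl]; exact hs0)
    apply zz_ne (r a)
    funext i
    have h1 := congrArg ev (hF i)
    simp only [F, map_sub, map_mul, map_zero] at h1
    have e5 := congrFun (hN_map ev q (a :: m) (fun i => MvPolynomial.C (wK i))) i
    have e6 : (fun (j : W → Fin 2) (i : Fin 3) => ev (q j i)) = fun j => zz (r j) := by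
      funext j i
      simp [ev, q]
    have e7 : (fun i => ev (MvPolynomial.C (wK i))) = fun i => ((w i : ℝ) : ℂ) := by
      funext i
      simp [ev, wK]
    have e8 : ev (((a :: m).map (fun j => q j ⬝ᵥ q j)).prod) = 0 := by
      rw [map_list_prod, List.map_map]
      apply List.prod_eq_zero
      rw [List.mem_map]
      refine ⟨a, by simp, ?_⟩
      have := hz0 a
      simp only [dotProduct, Fin.sum_univ_three] at this
      simp [q, dotProduct, Fin.sum_univ_three, ev, this]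
    rw [e5, e6, e7, e8, e] at h1
    simp only [Pi.smul_apply, smul_eq_mul, zero_mul, sub_zero] at h1
    simpa [hκ] using h1

end Pool.Agent.R951.PCE
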