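import Pool.Agent.R951.PCE.A

open Matrix Cardinal

namespace Pool.Agent.R951.PCE

theorem sN_append {J : Type*} (p : J → Fin 3 → ℝ) (l1 l2 : List J) (v : Fin 3 → ℝ) :
    sN p (l1 ++ l2) v = sN p l1 (sN p l2 v) := by
  simp [sN, List.foldr_append]

theorem sN_reverse {J : Type*} (p : J → Fin 3 → ℝ) (hp : ∀ j, p j ⬝ᵥ p j ≠ 0) (l : List J) :
    ∀ v : Fin 3 → ℝ, sN p l.reverse (sN p l v) = v := by
  induction l with
  | nil => intro v; rfl
  | cons a m ih =>
    intro v
    rw [List.reverse_cons, sN_append, sN_cons, sN_cons, sN_nil, hs_hs _ _ (hp a), ih]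

section
variable {J : Type*} {p : J → Fin 3 → ℝ} {W : Set (Fin 3 → ℝ)}

theorem uniq (hp : ∀ j, p j ⬝ᵥ p j ≠ 0)
    (hgen : ∀ l : List J, l ≠ [] → l.IsChain (· ≠ ·) → ∀ w ∈ W, ∀ w' ∈ W, sN p l w ≠ w') :
    ∀ (l l' : List J) (hl : l ≠ []) (hl' : l' ≠ []), l.IsChain (· ≠ ·) → l'.IsChain (· ≠ ·) →
      ∀ w ∈ W, ∀ w' ∈ W, sN p l w = sN p l' w' → l.getLast hl = l'.getLast hl' ∧ w = w' := by
  intro l
  induction l with
  | nil => intro l' hl; exact absurd rfl hl
  | cons a m ih =>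
    intro l' hl hl' hc hc' w hw w' hw' heq
    obtain ⟨a', m', rfl⟩ := List.exists_cons_of_ne_nil hl'
    by_cases haa : a = a'
    · subst haa
      have h1 : sN p m w = sN p m' w' := by
        have := congrArg (hs (p a)) heq
        rwa [sN_cons, sN_cons, hs_hs _ _ (hp a), hs_hs _ _ (hp a)] at this
      by_cases hm : m = []
      · subst hm
        by_cases hm' : m' = []
        · subst hm'
          exact ⟨rfl, h1⟩
        · exact absurd h1.symm (hgen m' hm' hc'.tail w' hw' w hw)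
      · by_cases hm' : m' = []
        · subst hm'
          exact absurd h1 (hgen m hm hc.tail w hw w' hw')
        · have := ih m' hm hm' hc.tail hc'.tail w hw w' hw' h1
          rw [List.getLast_cons hm, List.getLast_cons hm']
          exact this
    · exfalso
      refine hgen ((a' :: m').reverse ++ (a :: m)) (by simp) ?_ w hw w' hw' ?_
      · rw [List.isChain_append]
        refine ⟨?_, hc, ?_⟩
        · rw [List.isChain_reverse]
          exact hc'.imp (fun x y h => Ne.symm h)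
        · intro x hx y hy
          simp at hx hy
          rw [← hx, ← hy]
          exact Ne.symm haa
      · rw [sN_append, heq, sN_reverse p hp]
end

/-- points reached from `W` by nonempty reduced words, with the value to be given to them -/
def Rep {W : Set (Fin 3 → ℝ)} (p : (W → Fin 2) → Fin 3 → ℝ) (x : Fin 3 → ℝ) (v : Fin 2) : Prop :=
  ∃ (l : List (W → Fin 2)) (hl : l ≠ []) (w : W), l.IsChain (· ≠ ·) ∧ sN p l w.1 = x ∧
    l.getLast hl w = v

theorem rep_step {W : Set (Fin 3 → ℝ)} (p : (W → Fin 2) → Fin 3 → ℝ) (hp : ∀ j, p j ⬝ᵥ p j ≠ 0)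
    (x : Fin 3 → ℝ) (v : Fin 2) (j : W → Fin 2) (h : Rep p x v) (hx : hs (p j) x ∉ W) :
    Rep p (hs (p j) x) v := by
  obtain ⟨l, hl, w, hc, hsx, hv⟩ := h
  obtain ⟨a, m, rfl⟩ := List.exists_cons_of_ne_nil hl
  by_cases haj : j = a
  · subst haj
    rw [sN_cons] at hsx
    have h1 : hs (p j) x = sN p m w.1 := by rw [← hsx, hs_hs _ _ (hp j)]
    by_cases hm : m = []
    · subst hm
      rw [h1, sN_nil] at hx
      exact absurd w.2 hx
    · refine ⟨m, hm, w, hc.tail, h1.symm, ?_⟩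
      rw [List.getLast_cons hm] at hv
      exact hv
  · refine ⟨j :: a :: m, by simp, w, ?_, ?_, ?_⟩
    · rw [List.isChain_cons_cons]
      exact ⟨haj, hc⟩
    · rw [sN_cons, hsx]
    · rw [List.getLast_cons (by simp)]
      exact hv

theorem partB (W : Set (Fin 3 → ℝ)) (hW1 : ∀ w ∈ W, w ⬝ᵥ w = 1) (hW : (2 : Cardinal) ^ #W ≤ 𝔠) :
    ∃ c : (Fin 3 → ℝ) → Fin 2, ∀ f : (Fin 3 → ℝ) → Fin 2, (∀ x, x ⬝ᵥ x = 1 → x ∉ W → f x = c x) →
      ∃ q : Fin 3 → ℝ, q ⬝ᵥ q ≠ 0 ∧ ∀ x, x ⬝ᵥ x = 1 → f (hs q x) = f x := by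
  classical
  obtain ⟨p, hp, hgen⟩ := exists_generic W hW1 hW
  refine ⟨fun x => if Rep p x 1 then 1 else 0, ?_⟩
  intro f hf
  let e : W → Fin 2 := fun w => f w.1
  refine ⟨p e, hp e, ?_⟩
  -- value of the colouring one step away from `W`
  have key1 : ∀ x ∈ W, hs (p e) x ∉ W ∧
      (if Rep p (hs (p e) x) 1 then (1 : Fin 2) else 0) = f x := by
    intro x hx
    have hrep : Rep p (hs (p e) x) (f x) :=
      ⟨[e], by simp, ⟨x, hx⟩, by simp, rfl, rfl⟩
    refine ⟨fun hmem => hgen [e] (by simp) (by simp) x hx _ hmem rfl, ?_⟩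
    have huniq : ∀ v, Rep p (hs (p e) x) v → v = f x := by
      intro v hv
      obtain ⟨l, hl, w, hc, hsx, hv⟩ := hv
      obtain ⟨l', hl', w', hc', hsx', hv'⟩ := hrep
      have := uniq hp hgen l l' hl hl' hc hc' w w.2 w' w'.2 (hsx.trans hsx'.symm)
      rw [← hv, ← hv', this.1, Subtype.ext this.2]
    split_ifs with h
    · exact huniq 1 h
    · have : f x ≠ 1 := fun h1 => h (h1 ▸ hrep)
      have h4 : (f x).val ≠ 1 := fun h => this (Fin.ext h)
      have h2 := (f x).isLt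
      apply Fin.ext
      simp only [Fin.val_zero]
      omega
  intro x hx1
  have hx1' : hs (p e) x ⬝ᵥ hs (p e) x = 1 := by rw [hs_dot _ _ (hp e), hx1]
  by_cases hx : x ∈ W
  · obtain ⟨h1, h2⟩ := key1 x hx
    rw [hf _ hx1' h1]
    exact h2
  · by_cases hy : hs (p e) x ∈ W
    · obtain ⟨h1, h2⟩ := key1 _ hy
      rw [hs_hs _ _ (hp e)] at h1 h2
      rw [hf _ hx1 h1]
      exact h2.symm
    · rw [hf _ hx1' hy, hf _ hx1 hx]
      have : Rep p (hs (p e) x) 1 ↔ Rep p x 1 := by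
        constructor
        · intro h
          have := rep_step p hp _ 1 e h (by rw [hs_hs _ _ (hp e)]; exact hx)
          rwa [hs_hs _ _ (hp e)] at this
        · intro h
          exact rep_step p hp _ 1 e h hy
      simp only [this]

end Pool.Agent.R951.PCE
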