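import Mathlib

open Matrix Cardinal

namespace Pool.Agent.R951.PCE

theorem selection {I X D : Type} (κ : Cardinal.{0}) (hκ : ℵ₀ < κ) (hI : #I ≤ κ)
    (S : I → D → Set X) (hS : ∀ i d, (S i d).Finite) (P : I → D → Prop)
    (hP : ∀ i, ∀ U : Set X, #U < κ → ∃ d, P i d ∧ Disjoint (S i d) U) :
    ∃ f : I → D, (∀ i, P i (f i)) ∧ ∀ i j, i ≠ j → Disjoint (S i (f i)) (S j (f j)) := by
  classical
  obtain ⟨r, wo, hr⟩ := exists_ord_eq I
  have bound : ∀ (i : I) (g : ∀ j, r j i → D),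
      #(⋃ (j : {j // r j i}), S j.1 (g j.1 j.2) : Set X) < κ := by
    intro i g
    have h1 : #{j // r j i} < κ := by
      have := card_typein_lt i hr
      rw [Ordinal.card_typein] at this
      exact this.trans_le hI
    refine (mk_iUnion_le_sum_mk).trans_lt ?_
    refine (sum_le_sum _ (fun _ => ℵ₀) ?_).trans_lt ?_
    · intro j
      exact ((hS _ _).lt_aleph0).le
    · rw [sum_const']
      exact mul_lt_of_lt hκ.le h1 hκ
  let f : I → D := wo.wf.fix (fun i g => Classical.choose (hP i _ (bound i g)))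
  have hf : ∀ i, P i (f i) ∧ Disjoint (S i (f i)) (⋃ (j : {j // r j i}), S j.1 (f j.1)) := by
    intro i
    have := wo.wf.fix_eq (fun i g => Classical.choose (hP i _ (bound i g))) i
    have h2 : f i = Classical.choose (hP i _ (bound i (fun j _ => f j))) := this
    rw [h2]
    exact Classical.choose_spec (hP i _ (bound i (fun j _ => f j)))
  refine ⟨f, fun i => (hf i).1, ?_⟩
  intro i j hij
  by_cases h1 : r i j
  · have := (Set.disjoint_iUnion_right.1 (hf j).2) ⟨i, h1⟩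
    exact this.symm
  · by_cases h2 : r j i
    · exact (Set.disjoint_iUnion_right.1 (hf i).2) ⟨j, h2⟩
    · exact absurd (wo.trichotomous i j h1 h2) hij

theorem cross_mulVec (A : Matrix (Fin 3) (Fin 3) ℝ) (a b : Fin 3 → ℝ) :
    (A *ᵥ a) ⨯₃ (A *ᵥ b) = (adjugate A)ᵀ *ᵥ (a ⨯₃ b) := by
  rw [cross_apply, cross_apply, adjugate_fin_three]
  funext i
  fin_cases i <;> simp [mulVec, dotProduct, Fin.sum_univ_three] <;> ring

theorem lemD (A B : Matrix (Fin 3) (Fin 3) ℝ) (hA : Aᵀ * A = 1) (hB : Bᵀ * B = 1)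
    (hdet : A.det = B.det) (w1 w2 : Fin 3 → ℝ) (h1 : A *ᵥ w1 = B *ᵥ w1) (h2 : A *ᵥ w2 = B *ᵥ w2)
    (hn : w1 ⨯₃ w2 ≠ 0) : A = B := by
  have hB' : B * Bᵀ = 1 := mul_eq_one_comm.1 hB
  set C := Bᵀ * A with hC
  have hCC : Cᵀ * C = 1 := by
    rw [hC, transpose_mul, transpose_transpose, Matrix.mul_assoc, ← Matrix.mul_assoc B, hB',
      Matrix.one_mul, hA]
  have hdB : B.det * B.det = 1 := by
    have := congrArg det hB
    rwa [det_mul, det_transpose, det_one] at this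
  have hdC : C.det = 1 := by rw [hC, det_mul, det_transpose, hdet, hdB]
  have hadj : adjugate C = Cᵀ := by
    have := mul_adjugate C
    rw [hdC, one_smul] at this
    calc adjugate C = (Cᵀ * C) * adjugate C := by rw [hCC, Matrix.one_mul]
      _ = Cᵀ := by rw [Matrix.mul_assoc, this, Matrix.mul_one]
  have e1 : C *ᵥ w1 = w1 := by
    rw [hC, ← mulVec_mulVec, h1, mulVec_mulVec, hB, one_mulVec]
  have e2 : C *ᵥ w2 = w2 := by
    rw [hC, ← mulVec_mulVec, h2, mulVec_mulVec, hB, one_mulVec]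
  have e3 : C *ᵥ (w1 ⨯₃ w2) = w1 ⨯₃ w2 := by
    have := cross_mulVec C w1 w2
    rw [e1, e2, hadj, transpose_transpose] at this
    exact this.symm
  set n := w1 ⨯₃ w2 with hnn
  have hdet : (Matrix.of ![n, w1, w2]).det ≠ 0 := by
    have : (Matrix.of ![n, w1, w2]).det = n ⬝ᵥ n := (triple_product_eq_det n w1 w2).symm
    rw [this]
    intro h
    exact hn (dotProduct_self_eq_zero.1 h)
  have hM : C * (Matrix.of ![n, w1, w2])ᵀ = (Matrix.of ![n, w1, w2])ᵀ := by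
    ext i j
    fin_cases j
    · exact congrFun e3 i
    · exact congrFun e1 i
    · exact congrFun e2 i
  have hC1 : C = 1 := by
    have hu : IsUnit (Matrix.of ![n, w1, w2])ᵀ := by
      rw [Matrix.isUnit_iff_isUnit_det, det_transpose]
      exact isUnit_iff_ne_zero.2 hdet
    have := hu.mul_left_injective (a₁ := C) (a₂ := 1) (by simpa using hM)
    exact this
  calc A = B * Bᵀ * A := by rw [hB', Matrix.one_mul]
    _ = B * C := by rw [hC, Matrix.mul_assoc]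
    _ = B := by rw [hC1, Matrix.mul_one]

theorem exists_cross (T : Set (Fin 3 → ℝ)) (hT1 : ∀ w ∈ T, w ⬝ᵥ w = 1) (hT : ¬ T.Countable) :
    ∃ w1 ∈ T, ∃ w2 ∈ T, w1 ⨯₃ w2 ≠ 0 := by
  have h0 : T.Nonempty := by
    rw [Set.nonempty_iff_ne_empty]
    rintro rfl
    exact hT Set.countable_empty
  obtain ⟨w1, hw1⟩ := h0
  have h2 : ∃ w2 ∈ T, w2 ∉ ({w1, -w1} : Set (Fin 3 → ℝ)) := by
    by_contra hcon
    push Not at hcon
    exact hT ((Set.toFinite ({w1, -w1} : Set (Fin 3 → ℝ))).countable.mono hcon)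
  obtain ⟨w2, hw2, hne⟩ := h2
  refine ⟨w1, hw1, w2, hw2, ?_⟩
  intro h
  have hL : (w1 ⬝ᵥ w2) * (w1 ⬝ᵥ w2) = 1 := by
    have := cross_dot_cross w1 w2 w1 w2
    rw [h, hT1 w1 hw1, hT1 w2 hw2, dotProduct_comm w2 w1] at this
    simp at this
    linarith
  apply hne
  rcases mul_self_eq_one_iff.1 hL with h3 | h3
  · left
    have : (w2 - w1) ⬝ᵥ (w2 - w1) = 0 := by
      rw [sub_dotProduct, dotProduct_sub, dotProduct_sub, hT1 w1 hw1, hT1 w2 hw2,
        dotProduct_comm w2 w1, h3]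
      ring
    exact sub_eq_zero.1 (dotProduct_self_eq_zero.1 this)
  · right
    have : (w2 + w1) ⬝ᵥ (w2 + w1) = 0 := by
      rw [add_dotProduct, dotProduct_add, dotProduct_add, hT1 w1 hw1, hT1 w2 hw2,
        dotProduct_comm w2 w1, h3]
      ring
    exact eq_neg_of_add_eq_zero_left (dotProduct_self_eq_zero.1 this)

/-- the points of `W` mapped into `W` by `A` -/
def VA (W : Set (Fin 3 → ℝ)) (A : Matrix (Fin 3) (Fin 3) ℝ) : Set (Fin 3 → ℝ) :=
  {w | w ∈ W ∧ A *ᵥ w ∈ W}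

theorem mulVec_inj_of_orth (A : Matrix (Fin 3) (Fin 3) ℝ) (hA : Aᵀ * A = 1) :
    Function.Injective (fun v : Fin 3 → ℝ => A *ᵥ v) := by
  intro v w h
  have := congrArg (fun u => Aᵀ *ᵥ u) h
  simpa [mulVec_mulVec, hA] using this

theorem dot_of_orth (A : Matrix (Fin 3) (Fin 3) ℝ) (hA : Aᵀ * A = 1) (v : Fin 3 → ℝ) :
    (A *ᵥ v) ⬝ᵥ (A *ᵥ v) = v ⬝ᵥ v := by
  rw [dotProduct_mulVec, vecMul_mulVec, ← dotProduct_mulVec]
  simp [hA]

theorem card_G2 (W : Set (Fin 3 → ℝ)) (hW1 : ∀ w ∈ W, w ⬝ᵥ w = 1) (hκ : ℵ₀ < #W)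
    (G : Set (Matrix (Fin 3) (Fin 3) ℝ)) (hG : ∀ A ∈ G, Aᵀ * A = 1 ∧ ¬ (VA W A).Countable) :
    #G ≤ #W := by
  classical
  have h : ∀ A : G, ∃ w1 ∈ VA W A.1, ∃ w2 ∈ VA W A.1, w1 ⨯₃ w2 ≠ 0 := fun A =>
    exists_cross _ (fun w hw => hW1 w hw.1) (hG A.1 A.2).2
  choose a ha b hb hab using h
  let F : G → (W × W) × (W × W) × Bool := fun A =>
    ((⟨a A, (ha A).1⟩, ⟨b A, (hb A).1⟩),
      (⟨A.1 *ᵥ a A, (ha A).2⟩, ⟨A.1 *ᵥ b A, (hb A).2⟩), decide (A.1.det = 1))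
  have hdet : ∀ A : G, A.1.det = 1 ∨ A.1.det = -1 := by
    intro A
    have := congrArg det (hG A.1 A.2).1
    rw [det_mul, det_transpose, det_one] at this
    exact mul_self_eq_one_iff.1 this
  have hF : Function.Injective F := by
    intro A B hAB
    simp only [F, Prod.mk.injEq, Subtype.mk.injEq, decide_eq_decide] at hAB
    obtain ⟨⟨h1, h2⟩, ⟨h3, h4⟩, h5⟩ := hAB
    apply Subtype.ext
    refine lemD A.1 B.1 (hG A.1 A.2).1 (hG B.1 B.2).1 ?_ (a A) (b A) ?_ ?_ (hab A)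
    · rcases hdet A with hA | hA
      · rw [hA, h5.1 hA]
      · rcases hdet B with hB | hB
        · rw [hB, h5.2 hB]
        · rw [hA, hB]
    · rw [h3, h1]
    · rw [h4, h2]
  have := mk_le_of_injective hF
  refine this.trans ?_
  simp only [mk_prod, lift_id]
  have hm : #W * #W = #W := mul_eq_self hκ.le
  rw [hm]
  rw [show #Bool = 2 by simp, ← mul_assoc, hm]
  exact (mul_le_mul' le_rfl ((natCast_lt_aleph0 (n := 2)).le.trans hκ.le)).trans hm.le

end Pool.Agent.R951.PCE
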