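import Pool.Agent.R951.PCE.C

open Matrix Cardinal

namespace Pool.Agent.R951.PCE

theorem mk_mat : #(Matrix (Fin 3) (Fin 3) ℝ) = 𝔠 := by
  have : #(Matrix (Fin 3) (Fin 3) ℝ) = #(Fin 3 → Fin 3 → ℝ) := rfl
  rw [this, mk_arrow, mk_arrow]
  simp only [lift_id, mk_real, mk_fin]
  have h : (𝔠 : Cardinal.{0}) ^ ((3 : ℕ) : Cardinal.{0}) = 𝔠 := by
    rw [power_natCast]
    exact power_nat_eq aleph0_le_continuum (by norm_num)
  rw [h, h]

/-- The union of two sets of size less than `κ` does not contain a set of size `κ`. -/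
theorem exists_fresh {X : Type} (κ : Cardinal.{0}) (hκ : ℵ₀ < κ) (E S T : Set X) (hE : κ ≤ #E)
    (hS : #S < κ) (hT : #T < κ) : ∃ x ∈ E, x ∉ S ∧ x ∉ T := by
  by_contra hcon
  push Not at hcon
  have : E ⊆ S ∪ T := by
    intro x hx
    by_cases h : x ∈ S
    · exact Or.inl h
    · exact Or.inr (hcon x hx h)
  have h1 : #E ≤ #S + #T := (mk_le_mk_of_subset this).trans (mk_union_le S T)
  exact absurd (hE.trans h1) (not_le.2 (add_lt_of_lt hκ.le hS hT))

theorem partC' (Γ : Set (Matrix (Fin 3) (Fin 3) ℝ)) (hΓ : ∀ A ∈ Γ, Aᵀ * A = 1)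
    (W : Set (Fin 3 → ℝ)) (hW1 : ∀ w ∈ W, w ⬝ᵥ w = 1) (hW : 𝔠 < (2 : Cardinal) ^ #W)
    (hstab : ∀ A ∈ Γ, A ≠ 1 → #W ≤ #{w | w ∈ W ∧ A *ᵥ w ≠ w})
    (c : (Fin 3 → ℝ) → Fin 2) :
    ∃ f : (Fin 3 → ℝ) → Fin 2, (∀ x, x ∉ W → f x = c x) ∧
      ∀ A ∈ Γ, A ≠ 1 → ∃ x, x ⬝ᵥ x = 1 ∧ f (A *ᵥ x) ≠ f x := by
  classical
  have hκ : ℵ₀ < #W := by
    by_contra h
    push Not at h
    have := power_le_power_left (two_ne_zero) h
    rw [two_power_aleph0] at this
    exact absurd hW (not_lt.2 this)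
  let G : Set (Matrix (Fin 3) (Fin 3) ℝ) := {A | A ∈ Γ ∧ A ≠ 1 ∧ ¬ (VA W A).Countable}
  have hG : #G ≤ #W := card_G2 W hW1 hκ G (fun A hA => ⟨hΓ A hA.1, hA.2.2⟩)
  let S : W ⊕ G → W → Set (Fin 3 → ℝ) := fun i d =>
    match i with
    | Sum.inl _ => {d.1}
    | Sum.inr A => {d.1, A.1 *ᵥ d.1}
  let P : W ⊕ G → W → Prop := fun i d =>
    match i with
    | Sum.inl _ => True
    | Sum.inr A => A.1 *ᵥ d.1 ≠ d.1
  obtain ⟨g, hgP, hgS⟩ := selection (I := W ⊕ G) (X := Fin 3 → ℝ) (D := W) (#W) hκ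
    (by
      rw [mk_sum, lift_id, lift_id]
      exact (add_le_add le_rfl hG).trans (add_eq_self hκ.le).le)
    S (by
      intro i d
      rcases i with _ | A
      · exact Set.finite_singleton _
      · exact Set.toFinite _) P
    (by
      intro i U hU
      rcases i with _ | A
      · obtain ⟨x, hx, hxU, -⟩ := exists_fresh (#W) hκ W U ∅ le_rfl hU (by simpa using hκ.pos)
        exact ⟨⟨x, hx⟩, trivial, by simpa [S] using hxU⟩
      · have hUA : #((fun v => A.1 *ᵥ v) ⁻¹' U : Set (Fin 3 → ℝ)) < #W :=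
          (mk_preimage_of_injective _ U (mulVec_inj_of_orth A.1 (hΓ _ A.2.1))).trans_lt hU
        obtain ⟨x, hx, hxU, hxA⟩ := exists_fresh (#W) hκ _ U _ (hstab A.1 A.2.1 A.2.2.1) hU hUA
        refine ⟨⟨x, hx.1⟩, hx.2, ?_⟩
        simp only [S]
        rw [Set.disjoint_left]
        rintro y (rfl | rfl)
        · exact hxU
        · exact hxA)
  -- the bits
  let b : G → (Fin 3 → ℝ) → Fin 2 := fun A x =>
    if x = A.1 *ᵥ (g (Sum.inr A)).1 then 1
    else if A.1 *ᵥ (g (Sum.inr A)).1 ∈ W then 0 else 1 + c (A.1 *ᵥ (g (Sum.inr A)).1)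
  let f : (W → Fin 2) → (Fin 3 → ℝ) → Fin 2 := fun T x =>
    if x ∈ W then
      if h : ∃ A : G, x ∈ S (Sum.inr A) (g (Sum.inr A)) then b h.choose x
      else if h : ∃ w : W, x = (g (Sum.inl w)).1 then T h.choose else 0
    else c x
  have f1 : ∀ T x, x ∉ W → f T x = c x := by
    intro T x hx
    simp only [f, if_neg hx]
  have f2 : ∀ T (A : G) x, x ∈ W → x ∈ S (Sum.inr A) (g (Sum.inr A)) → f T x = b A x := by
    intro T A x hx hxS
    have h : ∃ A : G, x ∈ S (Sum.inr A) (g (Sum.inr A)) := ⟨A, hxS⟩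
    have h2 : h.choose = A := by
      by_contra hne
      have := hgS (Sum.inr h.choose) (Sum.inr A) (by simpa using hne)
      exact Set.disjoint_left.1 this h.choose_spec hxS
    simp only [f, if_pos hx, dif_pos h, h2]
  have f3 : ∀ T (A : G), f T (A.1 *ᵥ (g (Sum.inr A)).1) ≠ f T (g (Sum.inr A)).1 := by
    intro T A
    have hne : A.1 *ᵥ (g (Sum.inr A)).1 ≠ (g (Sum.inr A)).1 := hgP (Sum.inr A)
    have e1 : f T (g (Sum.inr A)).1 = b A (g (Sum.inr A)).1 :=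
      f2 T A _ (g (Sum.inr A)).2 (by simp [S])
    by_cases hm : A.1 *ᵥ (g (Sum.inr A)).1 ∈ W
    · have e2 : f T (A.1 *ᵥ (g (Sum.inr A)).1) = b A (A.1 *ᵥ (g (Sum.inr A)).1) :=
        f2 T A _ hm (by simp [S])
      rw [e1, e2]
      simp only [b, if_true, if_neg hne.symm, if_pos hm]
      decide
    · rw [e1, f1 T _ hm]
      simp only [b, if_neg hne.symm, if_neg hm]
      generalize c (A.1 *ᵥ (g (Sum.inr A)).1) = z
      revert z
      decide
  have f4 : ∀ T (w : W), f T (g (Sum.inl w)).1 = T w := by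
    intro T w
    have h1 : ¬ ∃ A : G, (g (Sum.inl w)).1 ∈ S (Sum.inr A) (g (Sum.inr A)) := by
      rintro ⟨A, hA⟩
      have := hgS (Sum.inl w) (Sum.inr A) (by simp)
      exact Set.disjoint_left.1 this (by simp [S]) hA
    have h2 : ∃ w' : W, (g (Sum.inl w)).1 = (g (Sum.inl w')).1 := ⟨w, rfl⟩
    have h3 : h2.choose = w := by
      by_contra hne
      have := hgS (Sum.inl h2.choose) (Sum.inl w) (by simpa using hne)
      have hd : (g (Sum.inl w)).1 ∈ S (Sum.inl h2.choose) (g (Sum.inl h2.choose)) →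
          (g (Sum.inl w)).1 ∈ S (Sum.inl w) (g (Sum.inl w)) → False :=
        fun a b => Set.disjoint_left.1 this a b
      refine hd ?_ (by simp [S])
      simp only [S, Set.mem_singleton_iff]
      exact h2.choose_spec
    simp only [f, if_pos (g (Sum.inl w)).2, dif_neg h1, dif_pos h2, h3]
  by_contra hcon
  push Not at hcon
  have hbad : ∀ T : W → Fin 2, ∃ A ∈ Γ, A ≠ 1 ∧ ∀ x, x ⬝ᵥ x = 1 → f T (A *ᵥ x) = f T x :=
    fun T => hcon (f T) (f1 T)
  choose A hAΓ hA1 hAinv using hbad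
  have hcount : ∀ T, (VA W (A T)).Countable := by
    intro T
    by_contra h
    have hmem : A T ∈ G := ⟨hAΓ T, hA1 T, h⟩
    exact f3 T ⟨A T, hmem⟩ (hAinv T _ (hW1 _ (g (Sum.inr ⟨A T, hmem⟩)).2))
  have henum : ∀ B : Matrix (Fin 3) (Fin 3) ℝ, ∃ s : ℕ → (Fin 3 → ℝ),
      (VA W B).Countable → VA W B ⊆ Set.range s := by
    intro B
    by_cases h : (VA W B).Countable
    · obtain ⟨s, hs⟩ := Set.countable_iff_exists_subset_range.1 h
      exact ⟨s, fun _ => hs⟩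
    · exact ⟨fun _ => 0, fun h' => absurd h' h⟩
  choose s hs using henum
  let Ψ : (W → Fin 2) → Matrix (Fin 3) (Fin 3) ℝ × (ℕ → Fin 2) := fun T =>
    (A T, fun n => f T (s (A T) n))
  have hΨ : Function.Injective Ψ := by
    intro T T' h
    simp only [Ψ, Prod.mk.injEq] at h
    obtain ⟨hA, hf⟩ := h
    funext w
    rw [← f4 T w, ← f4 T' w]
    by_cases hw : (g (Sum.inl w)).1 ∈ VA W (A T)
    · obtain ⟨n, hn⟩ := hs (A T) (hcount T) hw
      have := congrFun hf n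
      rw [← hA] at this
      rwa [hn] at this
    · have hw' : A T *ᵥ (g (Sum.inl w)).1 ∉ W := fun h => hw ⟨(g (Sum.inl w)).2, h⟩
      have e1 := hAinv T _ (hW1 _ (g (Sum.inl w)).2)
      have e2 := hAinv T' _ (hW1 _ (g (Sum.inl w)).2)
      rw [← hA, f1 T' _ hw'] at e2
      rw [f1 T _ hw'] at e1
      rw [← e1, ← e2]
  have := mk_le_of_injective hΨ
  rw [mk_prod, mk_mat, mk_arrow] at this
  simp only [lift_id, mk_fin, Nat.cast_ofNat] at this
  have h6 : (𝔠 : Cardinal.{0}) * #(ℕ → Fin 2) = 𝔠 := by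
    have : #(ℕ → Fin 2) = 𝔠 := by simp
    rw [this, continuum_mul_self]
  rw [h6] at this
  exact absurd hW (not_lt.2 this)

end Pool.Agent.R951.PCE
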