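import Pool.Agent.R951.PCE.B
import Pool.Agent.R951.PCE.D

open Matrix Cardinal

namespace Pool.Agent.R951.PCE

theorem exceptional_unique (W : Set (Fin 3 → ℝ)) (hW1 : ∀ w ∈ W, w ⬝ᵥ w = 1) (hκ : ℵ₀ < #W)
    (A B : Matrix (Fin 3) (Fin 3) ℝ) (hA : Aᵀ * A = 1) (hB : Bᵀ * B = 1) (hA1 : A ≠ 1)
    (hB1 : B ≠ 1) (h1 : #{w | w ∈ W ∧ A *ᵥ w ≠ w} < #W) (h2 : #{w | w ∈ W ∧ B *ᵥ w ≠ w} < #W) :
    A = B := by
  have hF : ¬ ({w | w ∈ W ∧ A *ᵥ w = w ∧ B *ᵥ w = w} : Set (Fin 3 → ℝ)).Countable := by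
    intro hc
    have hF1 : #({w | w ∈ W ∧ A *ᵥ w = w ∧ B *ᵥ w = w} : Set (Fin 3 → ℝ)) < #W :=
      (Cardinal.le_aleph0_iff_set_countable.2 hc).trans_lt hκ
    have hsub : W ⊆ ({w | w ∈ W ∧ A *ᵥ w = w ∧ B *ᵥ w = w} : Set (Fin 3 → ℝ)) ∪
        ({w | w ∈ W ∧ A *ᵥ w ≠ w} ∪ {w | w ∈ W ∧ B *ᵥ w ≠ w}) := by
      intro w hw
      by_cases ha : A *ᵥ w = w
      · by_cases hb : B *ᵥ w = w
        · exact Or.inl ⟨hw, ha, hb⟩
        · exact Or.inr (Or.inr ⟨hw, hb⟩)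
      · exact Or.inr (Or.inl ⟨hw, ha⟩)
    have h3 := (mk_le_mk_of_subset hsub).trans ((mk_union_le _ _).trans
      (add_le_add le_rfl (mk_union_le _ _)))
    exact absurd h3 (not_le.2 (add_lt_of_lt hκ.le hF1 (add_lt_of_lt hκ.le h1 h2)))
  obtain ⟨w1, hw1, w2, hw2, hn⟩ := exists_cross _ (fun w hw => hW1 w hw.1) hF
  have hdet : ∀ C : Matrix (Fin 3) (Fin 3) ℝ, Cᵀ * C = 1 → C ≠ 1 → C *ᵥ w1 = w1 → C *ᵥ w2 = w2 →
      C.det = -1 := by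
    intro C hC hC1 e1 e2
    have := congrArg det hC
    rw [det_mul, det_transpose, det_one] at this
    rcases mul_self_eq_one_iff.1 this with h | h
    · exfalso
      apply hC1
      exact lemD C 1 hC (by simp) (by rw [h, det_one]) w1 w2 (by rw [e1, one_mulVec])
        (by rw [e2, one_mulVec]) hn
    · exact h
  refine lemD A B hA hB ?_ w1 w2 (by rw [hw1.2.1, hw1.2.2]) (by rw [hw2.2.1, hw2.2.2]) hn
  rw [hdet A hA hA1 hw1.2.1 hw2.2.1, hdet B hB hB1 hw1.2.2 hw2.2.2]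

theorem partC (Γ : Set (Matrix (Fin 3) (Fin 3) ℝ)) (hΓ : ∀ A ∈ Γ, Aᵀ * A = 1)
    (W : Set (Fin 3 → ℝ)) (hW1 : ∀ w ∈ W, w ⬝ᵥ w = 1) (hW : 𝔠 < (2 : Cardinal) ^ #W)
    (hstab : ∀ A ∈ Γ, A ≠ 1 → ∃ w ∈ W, A *ᵥ w ≠ w)
    (c : (Fin 3 → ℝ) → Fin 2) :
    ∃ f : (Fin 3 → ℝ) → Fin 2, (∀ x, x ∉ W → f x = c x) ∧
      ∀ A ∈ Γ, A ≠ 1 → ∃ x, x ⬝ᵥ x = 1 ∧ f (A *ᵥ x) ≠ f x := by
  classical
  have hκ : ℵ₀ < #W := by
    by_contra h
    push Not at h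
    have := power_le_power_left (two_ne_zero) h
    rw [two_power_aleph0] at this
    exact absurd hW (not_lt.2 this)
  by_cases hex : ∃ A ∈ Γ, A ≠ 1 ∧ #{w | w ∈ W ∧ A *ᵥ w ≠ w} < #W
  · obtain ⟨A0, hA0, hA01, hA0c⟩ := hex
    obtain ⟨w0, hw0, hw0'⟩ := hstab A0 hA0 hA01
    have hfin : ∀ S : Set (Fin 3 → ℝ), #W ≤ #S → #W ≤ #(S \ {w0, A0 *ᵥ w0} : Set (Fin 3 → ℝ)) := by
      intro S hS
      by_contra h
      push Not at h
      have hsub : S ⊆ (S \ {w0, A0 *ᵥ w0}) ∪ {w0, A0 *ᵥ w0} := by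
        rw [Set.sdiff_union_self]; exact Set.subset_union_left
      have h3 := (mk_le_mk_of_subset hsub).trans (mk_union_le _ _)
      have h4 : #({w0, A0 *ᵥ w0} : Set (Fin 3 → ℝ)) < #W :=
        (Set.Finite.lt_aleph0 (Set.toFinite _)).trans hκ
      exact absurd (hS.trans h3) (not_le.2 (add_lt_of_lt hκ.le h h4))
    have hcard : #(W \ {w0, A0 *ᵥ w0} : Set (Fin 3 → ℝ)) = #W :=
      le_antisymm (mk_le_mk_of_subset Set.sdiff_subset) (hfin W le_rfl)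
    obtain ⟨f, hf, hfA⟩ := partC' (Γ \ {A0}) (fun A hA => hΓ A hA.1) (W \ {w0, A0 *ᵥ w0})
      (fun w hw => hW1 w hw.1) (by rw [hcard]; exact hW)
      (by
        intro A hA hA1
        rw [hcard]
        have h1 : #W ≤ #{w | w ∈ W ∧ A *ᵥ w ≠ w} := by
          by_contra h
          push Not at h
          exact hA.2 (exceptional_unique W hW1 hκ A A0 (hΓ A hA.1) (hΓ A0 hA0) hA1 hA01 h hA0c)
        refine (hfin _ h1).trans (mk_le_mk_of_subset ?_)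
        rintro w ⟨hw1, hw2⟩
        exact ⟨⟨hw1.1, hw2⟩, hw1.2⟩)
      (fun x => if x = w0 then (if A0 *ᵥ w0 ∈ W then 0 else 1 + c (A0 *ᵥ w0))
        else if x = A0 *ᵥ w0 ∧ A0 *ᵥ w0 ∈ W then 1 else c x)
    refine ⟨f, ?_, ?_⟩
    · intro x hx
      rw [hf x (fun h => hx h.1)]
      have h1 : x ≠ w0 := fun h => hx (h ▸ hw0)
      have h2 : ¬ (x = A0 *ᵥ w0 ∧ A0 *ᵥ w0 ∈ W) := fun h => hx (h.1 ▸ h.2)
      rw [if_neg h1, if_neg h2]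
    · intro A hA hA1
      by_cases hAA : A = A0
      · subst hAA
        refine ⟨w0, hW1 w0 hw0, ?_⟩
        rw [hf w0 (by simp), hf (A *ᵥ w0) (by simp)]
        rw [if_pos rfl, if_neg hw0']
        by_cases hm : A *ᵥ w0 ∈ W
        · rw [if_pos hm, if_pos ⟨rfl, hm⟩]
          decide
        · rw [if_neg hm, if_neg (fun h => hm h.2)]
          generalize c (A *ᵥ w0) = z
          revert z
          decide
      · exact hfA A ⟨hA, hAA⟩ hA1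
  · push Not at hex
    exact partC' Γ hΓ W hW1 hW hex c

end Pool.Agent.R951.PCE
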